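import Pool.Agent.U123.CurveMu
import Pool.Agent.U123.Frenet

/-!
# The length of the Frenet frame exceeds `2π μ(n)`

For every `n ≥ 4` and every nondegenerate closed curve `γ` in `ℝⁿ` the length of the Frenet frame,
`L(E) = ∫ (κ_1² + ⋯ + κ_{n-1}²)^{1/2} ds`, is greater than `2π μ(n)`. Here `μ(n) = 1` (see
`MuEqualsOne`), and `L(E) > ∫ κ_1 ds ≥ 2π` by Fenchel's theorem, which is proved here for the tangent
indicatrix in any dimension.
-/

set_option autoImplicit false

open scoped Real

namespace Pool.Agent.Results.MP_f07be6_gt.FrameLength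

open Pool.Agent.U123.Curves

/-- For every `n ≥ 4` and every nondegenerate closed curve in `ℝⁿ` the length of its Frenet frame
exceeds `2π μ(n)`. -/
theorem result (n : ℕ) (hn : 4 ≤ n) (γ : ℝ → EuclideanSpace ℝ (Fin n)) (hγ : IsClosedCurve γ)
    (hN : Nondegenerate γ) : 2 * π * mu n < frameLength γ := by
  rw [mu_eq_one n hn, Nat.cast_one, mul_one]
  exact frameLength_gt (by omega) hγ hN

end Pool.Agent.Results.MP_f07be6_gt.FrameLength
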