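import Pool.Agent.U123.CurveMu

/-!
# `μ(n) = 1` for every `n ≥ 4`

Every `C^∞`-neighbourhood of the unit circle traversed once, `c_1(t) = (cos t, sin t, 0, …, 0)`,
contains a nondegenerate closed curve in `ℝⁿ`, `n ≥ 4`.

Proof. Let `Γ` be any closed nondegenerate curve in `ℝ^(n-2)` whose coordinates are trigonometric
polynomials, and let `f` be the solution of `f''(t) + f(t) = Γ(2t)` (there is no resonance, as
`Γ(2t)` only has even frequencies). Then `(cos t, sin t, ε f(t))` is nondegenerate for all `ε ≠ 0`: if
a covector `(a, b, w)` annihilates its derivatives of orders `1, …, n` at a point `t`, adding those of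
orders `j + 2` and `j` gives `w · Γ^(j)(2t) = 0` for `j = 1, …, n - 2`, so `w = 0`, and then
`a = b = 0`. By induction this also gives the curves `Γ`, starting with the circle in the plane and
with the space curve `(sin t + sin 2t / 2, -cos t + cos 2t / 2, sin 3t / 3)`, for which
`det(Γ', Γ'', Γ''') = 2 (cos 3t + 1/2)² + 17/2 > 0`.
-/

set_option autoImplicit false

namespace Pool.Agent.Results.MP_f07be6_gt.MuEqualsOne

open Pool.Agent.U123.Curves

/-- For every `n ≥ 4` the least `m ≥ 1` such that every `C^∞`-neighbourhood of the `m` times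
traversed circle `c_m` contains a nondegenerate closed curve in `ℝⁿ` is `1`. -/
theorem result (n : ℕ) (hn : 4 ≤ n) : IsLeast {m : ℕ | 1 ≤ m ∧ Perturbable n m} 1 :=
  ⟨⟨le_rfl, perturbable_one n hn⟩, fun _ h => h.1⟩

end Pool.Agent.Results.MP_f07be6_gt.MuEqualsOne
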